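import Pool.Agent.Q279.FB.CM

/-!
# Q2 of MP_f38b71_nt is false

Definitions: `Pool.Agent.Q279.FB.Defs` (`E`, `Delta`, `j`, `F`, `GoodModel`, `ap`) and
`Pool.Agent.Q279.FB.CM` (`CMj`, `Holds2`, `Q2`). `Q279.FB.CM.C₁` is the curve
`y^2 + xy = x^3 - x^2 - 37x - 78` over `ℚ` (conductor 49, CM by the order `ℤ[√-7]` of discriminant
`-28`, `j = 255^3`), and `Q279.FB.CM.W₁` is the same equation over `ℤ`.
-/

set_option autoImplicit false

namespace Pool.Agent.Results.MP_f38b71_nt.CMQuestionFails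

open Q279.FB Q279.FB.CM

/-- The inequality of Q2 fails for `k = 4`, the CM curve with `j = 255^3`, `p = 2`, `n = l = 1`. -/
theorem result : ¬ Q2 ∧ (C₁.j = 16581375 ∧ GoodModel C₁ 2 W₁ ∧ ap W₁ 2 = 1 ∧
    ∀ u : ℤ_[2], IsUnit u → ¬ Holds2 4 C₁.j 2 u 1 1) :=
  main

end Pool.Agent.Results.MP_f38b71_nt.CMQuestionFails
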